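import Mathlib
import Pool.Agent.MRZ.PVb

namespace Pool.Agent.SmR

open Finset

theorem one_sub_inv_le {x : ℝ} (h0 : 0 ≤ x) (h1 : x ≤ 2 / 3) :
    (1 - x)⁻¹ ≤ Real.exp (x + 3 * x ^ 2) := by
  have h2 : 0 < 1 - x := by linarith
  have h3 := Real.add_one_le_exp (x + 3 * x ^ 2)
  refine le_trans ?_ h3
  rw [inv_le_iff_one_le_mul₀ h2]
  nlinarith [mul_nonneg h0 h0, mul_nonneg (mul_nonneg h0 h0) (by linarith : 0 ≤ 2 / 3 - x)]

/-- The completely multiplicative function `m ↦ m^s`. -/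
noncomputable def powHom (s : ℝ) : ℕ →* ℝ where
  toFun m := (m : ℝ) ^ s
  map_one' := by simp
  map_mul' a b := by
    push_cast
    exact Real.mul_rpow (Nat.cast_nonneg a) (Nat.cast_nonneg b)

theorem powHom_apply (s : ℝ) (m : ℕ) : powHom s m = (m : ℝ) ^ s := rfl

theorem prime_pow_le {s : ℝ} (hs : s ≤ -(3 / 4)) {p : ℕ} (hp : 2 ≤ p) : (p : ℝ) ^ s ≤ 2 / 3 := by
  have hp2 : (2 : ℝ) ≤ p := by exact_mod_cast hp
  have h1 : (p : ℝ) ^ s ≤ (p : ℝ) ^ (-(3 / 4) : ℝ) :=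
    Real.rpow_le_rpow_of_exponent_le (by linarith) hs
  have h2 : (p : ℝ) ^ (-(3 / 4) : ℝ) ≤ (2 : ℝ) ^ (-(3 / 4) : ℝ) :=
    Real.rpow_le_rpow_of_nonpos (by norm_num) hp2 (by norm_num)
  have h3 : (3 / 2 : ℝ) ≤ (2 : ℝ) ^ (3 / 4 : ℝ) := by
    have : ((3 / 2 : ℝ) ^ (4 : ℝ)) ^ (1 / 4 : ℝ) ≤ ((2 : ℝ) ^ (3 : ℝ)) ^ (1 / 4 : ℝ) := by
      apply Real.rpow_le_rpow (by positivity) _ (by norm_num)
      norm_num
    rw [← Real.rpow_mul (by norm_num), ← Real.rpow_mul (by norm_num)] at this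
    norm_num at this
    exact this
  have h4 : (2 : ℝ) ^ (-(3 / 4) : ℝ) ≤ 2 / 3 := by
    rw [Real.rpow_neg (by norm_num)]
    calc ((2 : ℝ) ^ (3 / 4 : ℝ))⁻¹ ≤ (3 / 2 : ℝ)⁻¹ := inv_anti₀ (by norm_num) h3
      _ = 2 / 3 := by norm_num
  linarith

theorem sum_smooth_le {s : ℝ} (hs : s ≤ -(3 / 4)) (Y : ℕ) (S : Finset ℕ)
    (hsm : ∀ m ∈ S, ∀ p, p.Prime → p ∣ m → p ≤ Y) :
    ∑ m ∈ S, (m : ℝ) ^ s ≤ ∏ p ∈ (Y + 1).primesBelow, (1 - (p : ℝ) ^ s)⁻¹ := by
  classical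
  have h := (EulerProduct.summable_and_hasSum_smoothNumbers_prod_primesBelow_geometric
    (f := powHom s) (fun {p} hp => by
      rw [powHom_apply, Real.norm_of_nonneg (by positivity)]
      have := prime_pow_le hs hp.two_le
      linarith) (Y + 1)).2
  have h2 := sum_le_hasSum (S.subtype (· ∈ (Y + 1).smoothNumbers))
    (fun i _ => by rw [powHom_apply]; positivity) h
  rw [Finset.sum_subtype_of_mem (f := fun m => powHom s m)] at h2
  · simpa only [powHom_apply] using h2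
  · intro m hm
    rw [Nat.mem_smoothNumbers']
    intro p hp hd
    have := hsm m hm p hp hd
    omega

theorem smooth_rankin : ∃ C : ℝ, 0 < C ∧ ∀ X Y : ℕ, 64 ≤ Y → Y ≤ X → ∀ S : Finset ℕ,
    S ⊆ Finset.Icc 1 X → (∀ m ∈ S, ∀ p, p.Prime → p ∣ m → p ≤ Y) →
    (S.card : ℝ) ≤ C * X * Real.log Y * Real.exp (-(Real.log X / Real.log Y)) := by
  obtain ⟨C₁, hC₁, hM⟩ := Pool.MRZ.PVb.mertens_nat
  have hsummable : Summable (fun n : ℕ => (n : ℝ) ^ (-(3 / 2) : ℝ)) :=
    Real.summable_nat_rpow.2 (by norm_num)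
  set C₂ : ℝ := ∑' n : ℕ, (n : ℝ) ^ (-(3 / 2) : ℝ) with hC₂
  refine ⟨Real.exp (C₁ + 4 + 3 * C₂), Real.exp_pos _, fun X Y hY hYX S hS hsm => ?_⟩
  have hY64 : (64 : ℝ) ≤ Y := by exact_mod_cast hY
  have hX64 : (64 : ℝ) ≤ X := by exact_mod_cast hY.trans hYX
  have hlY : 4 ≤ Real.log Y := by
    have h1 : Real.log 64 ≤ Real.log Y := Real.log_le_log (by norm_num) hY64
    have h2 : Real.log 64 = 6 * Real.log 2 := by
      rw [show (64 : ℝ) = 2 ^ 6 by norm_num, Real.log_pow]; norm_num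
    have h3 := Real.log_two_gt_d9
    linarith
  have hlY0 : 0 < Real.log Y := by linarith
  set b : ℝ := 1 / Real.log Y with hb
  have hb0 : 0 < b := by positivity
  have hb1 : b ≤ 1 / 4 := one_div_le_one_div_of_le (by norm_num) hlY
  have hblog : b * Real.log Y = 1 := by rw [hb]; field_simp
  have hs : b - 1 ≤ -(3 / 4) := by linarith
  have hX0 : (0 : ℝ) < X := by linarith
  -- Rankin
  have h1 : (S.card : ℝ) ≤ (X : ℝ) ^ (1 - b) * ∑ m ∈ S, (m : ℝ) ^ (b - 1) := by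
    rw [Finset.mul_sum, ← mul_one (S.card : ℝ), ← nsmul_eq_mul]
    apply Finset.card_nsmul_le_sum
    intro m hm
    have hm1 := Finset.mem_Icc.1 (hS hm)
    have hm0 : (0 : ℝ) < m := by exact_mod_cast hm1.1
    have hmX : (m : ℝ) ≤ X := by exact_mod_cast hm1.2
    have h2 : (X : ℝ) ^ (1 - b) * (m : ℝ) ^ (b - 1) = ((X : ℝ) / m) ^ (1 - b) := by
      rw [Real.div_rpow hX0.le hm0.le, show b - 1 = -(1 - b) by ring, Real.rpow_neg hm0.le,
        div_eq_mul_inv]
    rw [h2]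
    apply Real.one_le_rpow _ (by linarith)
    rw [one_le_div hm0]
    exact hmX
  have h2 := sum_smooth_le hs Y S hsm
  -- the product
  have hidx : (Y + 1).primesBelow = (Finset.range (Y + 1)).filter Nat.Prime := rfl
  have hidx2 : (Finset.Ioc 0 Y).filter Nat.Prime = (Finset.range (Y + 1)).filter Nat.Prime := by
    ext p
    simp only [Finset.mem_filter, Finset.mem_Ioc, Finset.mem_range]
    constructor
    · rintro ⟨h1, h2⟩; exact ⟨by omega, h2⟩
    · rintro ⟨h1, h2⟩; exact ⟨⟨h2.pos, by omega⟩, h2⟩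
  have h3 : ∏ p ∈ (Y + 1).primesBelow, (1 - (p : ℝ) ^ (b - 1))⁻¹ ≤
      Real.exp (∑ p ∈ (Y + 1).primesBelow,
        ((p : ℝ) ^ (b - 1) + 3 * ((p : ℝ) ^ (b - 1)) ^ 2)) := by
    rw [Real.exp_sum]
    apply Finset.prod_le_prod
    · intro p hp
      have hp2 := (Nat.prime_of_mem_primesBelow hp).two_le
      have := prime_pow_le hs hp2
      have : 0 < 1 - (p : ℝ) ^ (b - 1) := by linarith
      positivity
    · intro p hp
      have hp2 := (Nat.prime_of_mem_primesBelow hp).two_le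
      exact one_sub_inv_le (by positivity) (prime_pow_le hs hp2)
  have h4 : ∑ p ∈ (Y + 1).primesBelow, ((p : ℝ) ^ (b - 1)) ^ 2 ≤ C₂ := by
    refine le_trans (Finset.sum_le_sum (g := fun p : ℕ => (p : ℝ) ^ (-(3 / 2) : ℝ)) ?_)
      (hsummable.sum_le_tsum _ fun i _ => by positivity)
    intro p hp
    have hp2 := (Nat.prime_of_mem_primesBelow hp).two_le
    have hp1 : (1 : ℝ) ≤ p := by exact_mod_cast (by omega : 1 ≤ p)
    rw [← Real.rpow_natCast, ← Real.rpow_mul (by positivity)]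
    apply Real.rpow_le_rpow_of_exponent_le hp1
    push_cast
    linarith
  have h5 : ∑ p ∈ (Y + 1).primesBelow, (p : ℝ) ^ (b - 1) ≤ Real.log (Real.log Y) + C₁ + 4 := by
    have h6 : ∑ p ∈ (Y + 1).primesBelow, (p : ℝ) ^ (b - 1) ≤
        ∑ p ∈ (Y + 1).primesBelow, ((1 : ℝ) / p + 2 * b * (Real.log p / p)) := by
      apply Finset.sum_le_sum
      intro p hp
      have hpp := Nat.prime_of_mem_primesBelow hp
      have hpY : p < Y + 1 := Nat.lt_of_mem_primesBelow hp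
      have hp0 : (0 : ℝ) < p := by exact_mod_cast hpp.pos
      have hlp : 0 ≤ Real.log p := Real.log_natCast_nonneg p
      have hlp2 : Real.log p ≤ Real.log Y :=
        Real.log_le_log hp0 (by exact_mod_cast (by omega : p ≤ Y))
      have ht0 : 0 ≤ b * Real.log p := by positivity
      have ht1 : b * Real.log p ≤ 1 := by
        rw [← hblog]
        exact mul_le_mul_of_nonneg_left hlp2 hb0.le
      have h7 := Real.abs_exp_sub_one_le (x := b * Real.log p) (by rw [abs_of_nonneg ht0]; exact ht1)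
      rw [abs_of_nonneg ht0] at h7
      have h8 : Real.exp (b * Real.log p) ≤ 1 + 2 * (b * Real.log p) := by
        have := (abs_le.1 h7).2
        linarith
      have h9 : (p : ℝ) ^ (b - 1) = Real.exp (b * Real.log p) / p := by
        rw [Real.rpow_sub_one hp0.ne', Real.rpow_def_of_pos hp0, mul_comm b]
      rw [h9, div_le_iff₀ hp0]
      have h10 : (1 / (p : ℝ) + 2 * b * (Real.log p / p)) * p = 1 + 2 * (b * Real.log p) := by
        field_simp
      rw [h10]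
      exact h8
    refine h6.trans ?_
    rw [Finset.sum_add_distrib, ← Finset.mul_sum]
    have h11 := (abs_le.1 (hM Y (by omega))).2
    have h12 : Pool.MRZ.PVb.S Y = ∑ p ∈ (Y + 1).primesBelow, (1 : ℝ) / p := by
      rw [Pool.MRZ.PVb.S, hidx2, hidx]
    rw [h12] at h11
    have h13 := EK.mertens_first_upper Y (by omega)
    rw [← hidx] at h13
    have h14 : Real.log 4 ≤ Real.log Y := Real.log_le_log (by norm_num) (by linarith)
    have h15 : 2 * b * ∑ p ∈ (Y + 1).primesBelow, Real.log p / p ≤ 2 * b * (2 * Real.log Y) :=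
      mul_le_mul_of_nonneg_left (by linarith) (by positivity)
    have h16 : 2 * b * (2 * Real.log Y) = 4 := by
      calc 2 * b * (2 * Real.log Y) = 4 * (b * Real.log Y) := by ring
        _ = 4 := by rw [hblog]; norm_num
    linarith
  have h6 : ∏ p ∈ (Y + 1).primesBelow, (1 - (p : ℝ) ^ (b - 1))⁻¹ ≤
      Real.log Y * Real.exp (C₁ + 4 + 3 * C₂) := by
    refine h3.trans ?_
    rw [Finset.sum_add_distrib, ← Finset.mul_sum]
    calc Real.exp (∑ p ∈ (Y + 1).primesBelow, (p : ℝ) ^ (b - 1) +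
          3 * ∑ p ∈ (Y + 1).primesBelow, ((p : ℝ) ^ (b - 1)) ^ 2)
        ≤ Real.exp (Real.log (Real.log Y) + (C₁ + 4 + 3 * C₂)) := by
          apply Real.exp_le_exp.2; linarith
      _ = Real.log Y * Real.exp (C₁ + 4 + 3 * C₂) := by
          rw [Real.exp_add, Real.exp_log hlY0]
  have h7 : (X : ℝ) ^ (1 - b) = X * Real.exp (-(Real.log X / Real.log Y)) := by
    rw [Real.rpow_sub hX0, Real.rpow_one, Real.rpow_def_of_pos hX0, Real.exp_neg, div_eq_mul_inv,
      hb, mul_one_div]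
  calc (S.card : ℝ) ≤ (X : ℝ) ^ (1 - b) * ∑ m ∈ S, (m : ℝ) ^ (b - 1) := h1
    _ ≤ (X : ℝ) ^ (1 - b) * (Real.log Y * Real.exp (C₁ + 4 + 3 * C₂)) :=
        mul_le_mul_of_nonneg_left (h2.trans h6) (by positivity)
    _ = Real.exp (C₁ + 4 + 3 * C₂) * X * Real.log Y * Real.exp (-(Real.log X / Real.log Y)) := by
        rw [h7]; ring

end Pool.Agent.SmR
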